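import Mathlib

/-!
# The boundary of a free group: infinite reduced words

`Bdry n` is the space of infinite reduced words in the letters `Fin n × Bool`, with the left
multiplication `push s` by a letter `s`.
-/

open Filter Topology MeasureTheory

namespace Q16.Bd

/-- Letters of the free group of rank `n`. -/
abbrev Letter (n : ℕ) : Type := Fin n × Bool

/-- The inverse letter. -/
def inv {n : ℕ} (s : Letter n) : Letter n := (s.1, !s.2)

theorem inv_inv {n : ℕ} (s : Letter n) : inv (inv s) = s := by
  simp [inv]

theorem inv_ne {n : ℕ} (s : Letter n) : inv s ≠ s := by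
  intro h
  have := congrArg Prod.snd h
  simp [inv] at this

theorem inv_injective {n : ℕ} : Function.Injective (inv (n := n)) := by
  intro a b h
  rw [← inv_inv a, h, inv_inv]

/-- Infinite reduced words. -/
def Bdry (n : ℕ) : Type := {x : ℕ → Letter n // ∀ k, x (k + 1) ≠ inv (x k)}

instance (n : ℕ) : TopologicalSpace (Bdry n) := instTopologicalSpaceSubtype

instance (n : ℕ) : T2Space (Bdry n) :=
  inferInstanceAs (T2Space (Subtype fun x : ℕ → Letter n => ∀ k, x (k + 1) ≠ inv (x k)))

instance (n : ℕ) : SecondCountableTopology (Bdry n) :=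
  TopologicalSpace.secondCountableTopology_induced _ (ℕ → Letter n) Subtype.val

instance (n : ℕ) : CompactSpace (Bdry n) := by
  have hc : IsClosed {x : ℕ → Letter n | ∀ k, x (k + 1) ≠ inv (x k)} := by
    have : {x : ℕ → Letter n | ∀ k, x (k + 1) ≠ inv (x k)} =
        ⋂ k, (fun x : ℕ → Letter n => (x (k + 1), x k)) ⁻¹' {p | p.1 ≠ inv p.2} := by
      ext x
      simp
    rw [this]
    apply isClosed_iInter
    intro k
    exact (isClosed_discrete _).preimage (by fun_prop)
  exact isCompact_iff_compactSpace.1 hc.isCompact

instance (n : ℕ) : MeasurableSpace (Bdry n) := borel _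

instance (n : ℕ) : BorelSpace (Bdry n) := ⟨rfl⟩

variable {n : ℕ}

/-- The letters of a word. -/
def co (x : Bdry n) (k : ℕ) : Letter n := x.1 k

theorem co_ne (x : Bdry n) (k : ℕ) : co x (k + 1) ≠ inv (co x k) := x.2 k

theorem ext_co {x y : Bdry n} (h : ∀ k, co x k = co y k) : x = y :=
  Subtype.ext (funext h)

theorem continuous_co (k : ℕ) : Continuous fun x : Bdry n => co x k :=
  (continuous_apply k).comp continuous_subtype_val

theorem continuous_of_co {W : Type*} [TopologicalSpace W] {f : W → Bdry n}
    (h : ∀ k, Continuous fun w => co (f w) k) : Continuous f :=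
  Continuous.subtype_mk (continuous_pi h) _

/-- Removing the first letter. -/
def tail (x : Bdry n) : Bdry n := ⟨fun k => co x (k + 1), fun k => co_ne x (k + 1)⟩

/-- Adding a first letter. -/
def consW (s : Letter n) (x : Bdry n) (h : co x 0 ≠ inv s) : Bdry n :=
  ⟨fun k => Nat.casesOn k s (co x), fun k => by
    cases k with
    | zero => exact h
    | succ k => exact co_ne x k⟩

/-- Left multiplication by a letter. -/
def push (s : Letter n) (x : Bdry n) : Bdry n :=
  if h : co x 0 = inv s then tail x else consW s x h

theorem co_push_of_eq {s : Letter n} {x : Bdry n} (h : co x 0 = inv s) (k : ℕ) :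
    co (push s x) k = co x (k + 1) := by
  rw [push, dif_pos h]
  rfl

theorem co_push_zero {s : Letter n} {x : Bdry n} (h : co x 0 ≠ inv s) :
    co (push s x) 0 = s := by
  rw [push, dif_neg h]
  rfl

theorem co_push_succ {s : Letter n} {x : Bdry n} (h : co x 0 ≠ inv s) (k : ℕ) :
    co (push s x) (k + 1) = co x k := by
  rw [push, dif_neg h]
  rfl

theorem push_inv_push (s : Letter n) (x : Bdry n) : push (inv s) (push s x) = x := by
  by_cases h : co x 0 = inv s
  · have h1 : co (push s x) 0 ≠ inv (inv s) := by
      rw [co_push_of_eq h, ← h]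
      exact co_ne x 0
    apply ext_co
    intro k
    cases k with
    | zero => rw [co_push_zero h1, h]
    | succ k => rw [co_push_succ h1, co_push_of_eq h]
  · have h1 : co (push s x) 0 = inv (inv s) := by
      rw [co_push_zero h, inv_inv]
    apply ext_co
    intro k
    rw [co_push_of_eq h1, co_push_succ h]

theorem push_push_inv (s : Letter n) (x : Bdry n) : push s (push (inv s) x) = x := by
  have := push_inv_push (inv s) x
  rwa [inv_inv] at this

theorem continuous_push (s : Letter n) : Continuous (push s) := by
  apply continuous_of_co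
  intro k
  let G : Letter n × Letter n × Letter n → Letter n := fun p =>
    if p.1 = inv s then p.2.1 else if k = 0 then s else p.2.2
  have : (fun x : Bdry n => co (push s x) k) =
      fun x => G (co x 0, co x (k + 1), co x (k - 1)) := by
    funext x
    by_cases h : co x 0 = inv s
    · simp only [G, if_pos h]
      exact co_push_of_eq h k
    · simp only [G, if_neg h]
      cases k with
      | zero =>
        rw [if_pos rfl]
        exact co_push_zero h
      | succ k =>
        rw [if_neg (Nat.succ_ne_zero k)]
        exact co_push_succ h k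
  rw [this]
  exact (continuous_of_discreteTopology (f := G)).comp
    ((continuous_co 0).prodMk ((continuous_co (k + 1)).prodMk (continuous_co (k - 1))))

/-- The constant word. -/
def con (s : Letter n) : Bdry n := ⟨fun _ => s, fun _ h => inv_ne s h.symm⟩

theorem co_con (s : Letter n) (k : ℕ) : co (con s) k = s := rfl

/-- Agreement of the first `N` letters. -/
theorem mem_nhds_of_prefix {x : Bdry n} {U : Set (Bdry n)} (hU : U ∈ 𝓝 x) :
    ∃ N : ℕ, ∀ y : Bdry n, (∀ k < N, co y k = co x k) → y ∈ U := by
  have e : 𝓝 x = Filter.comap (fun y : Bdry n => (y.1 : ℕ → Letter n)) (𝓝 x.1) :=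
    nhds_induced (fun y : Bdry n => (y.1 : ℕ → Letter n)) x
  rw [e, Filter.mem_comap] at hU
  obtain ⟨V, hV, hVU⟩ := hU
  rw [nhds_pi, Filter.mem_pi'] at hV
  obtain ⟨I, t, ht, htV⟩ := hV
  refine ⟨I.sup id + 1, fun y hy => hVU (htV ?_)⟩
  intro i hi
  have h1 : co y i = co x i := hy i (Nat.lt_succ_of_le (Finset.le_sup (f := id) hi))
  change co y i ∈ t i
  rw [h1]
  exact mem_of_mem_nhds (ht i)

theorem isOpen_prefix (x : Bdry n) (N : ℕ) : IsOpen {y : Bdry n | ∀ k < N, co y k = co x k} := by
  have : {y : Bdry n | ∀ k < N, co y k = co x k} =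
      ⋂ k ∈ Finset.range N, (fun y : Bdry n => co y k) ⁻¹' {co x k} := by
    ext y
    simp
  rw [this]
  apply isOpen_biInter_finset
  intro k _
  exact (isOpen_discrete _).preimage (continuous_co k)

theorem isClosed_prefix (x : Bdry n) (N : ℕ) :
    IsClosed {y : Bdry n | ∀ k < N, co y k = co x k} := by
  have : {y : Bdry n | ∀ k < N, co y k = co x k} =
      ⋂ k ∈ Finset.range N, (fun y : Bdry n => co y k) ⁻¹' {co x k} := by
    ext y
    simp
  rw [this]
  apply isClosed_biInter
  intro k _
  exact (isClosed_discrete _).preimage (continuous_co k)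

theorem tendsto_of_prefix {W : Type*} {l : Filter W} {f : W → Bdry n} {x : Bdry n}
    (h : ∀ N, ∀ᶠ w in l, ∀ k < N, co (f w) k = co x k) : Tendsto f l (𝓝 x) := by
  intro U hU
  obtain ⟨N, hN⟩ := mem_nhds_of_prefix hU
  rw [Filter.mem_map]
  filter_upwards [h N] with w hw
  exact hN _ hw

theorem mem_of_isClosed_prefix {C : Set (Bdry n)} (hC : IsClosed C) {x : Bdry n}
    (h : ∀ N, ∃ y ∈ C, ∀ k < N, co y k = co x k) : x ∈ C := by
  choose f hf hfx using h
  have : Tendsto f atTop (𝓝 x) := by
    apply tendsto_of_prefix
    intro N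
    filter_upwards [eventually_ge_atTop N] with m hm k hk
    exact hfx m k (lt_of_lt_of_le hk hm)
  exact hC.mem_of_tendsto this (Eventually.of_forall hf)

/-! ### Dynamics of a letter -/

/-- Cancelling `j` letters. -/
theorem iter_cancel (s : Letter n) (j : ℕ) : ∀ x : Bdry n, (∀ i < j, co x i = inv s) →
    ∀ k, co ((push s)^[j] x) k = co x (k + j) := by
  induction j with
  | zero => intro x _ k; rfl
  | succ j ih =>
    intro x hx k
    rw [Function.iterate_succ_apply]
    have h0 : co x 0 = inv s := hx 0 (Nat.succ_pos j)
    rw [ih (push s x)]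
    · rw [co_push_of_eq h0]
      congr 1
    · intro i hi
      rw [co_push_of_eq h0]
      exact hx (i + 1) (Nat.succ_lt_succ hi)

/-- Adding letters. -/
theorem iter_add (s : Letter n) (x : Bdry n) (hx : co x 0 ≠ inv s) (m : ℕ) :
    (∀ k < m, co ((push s)^[m] x) k = s) ∧ ∀ k, co ((push s)^[m] x) (k + m) = co x k := by
  induction m with
  | zero => exact ⟨fun k hk => absurd hk (Nat.not_lt_zero k), fun k => rfl⟩
  | succ m ih =>
    have h1 : co ((push s)^[m] x) 0 ≠ inv s := by
      cases m with
      | zero => exact hx
      | succ m =>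
        rw [ih.1 0 (Nat.succ_pos m)]
        exact (inv_ne s).symm
    constructor
    · intro k hk
      rw [Function.iterate_succ_apply']
      cases k with
      | zero => exact co_push_zero h1
      | succ k =>
        rw [co_push_succ h1]
        exact ih.1 k (Nat.lt_of_succ_lt_succ hk)
    · intro k
      rw [Function.iterate_succ_apply', ← Nat.add_assoc, co_push_succ h1]
      exact ih.2 k

theorem iter_eventually (s : Letter n) (x : Bdry n) (hx : x ≠ con (inv s)) (N : ℕ) :
    ∀ᶠ m in atTop, ∀ k < N, co ((push s)^[m] x) k = s := by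
  classical
  have hex : ∃ j, co x j ≠ inv s := by
    by_contra hc
    push Not at hc
    exact hx (ext_co hc)
  let j := Nat.find hex
  have hj : co x j ≠ inv s := Nat.find_spec hex
  have hlt : ∀ i < j, co x i = inv s := fun i hi => by
    by_contra hc
    exact Nat.find_min hex hi hc
  filter_upwards [eventually_ge_atTop (N + j)] with m hm k hk
  obtain ⟨l, rfl⟩ : ∃ l, m = l + j := ⟨m - j, by lia⟩
  rw [Function.iterate_add_apply]
  have h0 : co ((push s)^[j] x) 0 ≠ inv s := by
    rw [iter_cancel s j x hlt, Nat.zero_add]
    exact hj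
  exact (iter_add s _ h0 l).1 k (by lia)

theorem tendsto_iter (s : Letter n) (x : Bdry n) (hx : x ≠ con (inv s)) :
    Tendsto (fun m => (push s)^[m] x) atTop (𝓝 (con s)) := by
  apply tendsto_of_prefix
  intro N
  exact iter_eventually s x hx N

/-- The contraction estimate for a finite measure. -/
theorem exists_contract (ν : Measure (Bdry n)) [IsFiniteMeasure ν] (r s : Letter n)
    (hr : r ≠ s) (hr' : r ≠ inv s) (N : ℕ) (ε : ENNReal) (hε : 0 < ε) :
    ∃ m p : ℕ, ν {x | ¬ ∀ k < N, co ((push s)^[p] ((push r)^[m] x)) k = s} < ε := by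
  -- the exceptional points
  let z : ℕ → Bdry n := fun m => (push (inv r))^[m] (con (inv s))
  have hz0 : co (con (inv s)) 0 ≠ inv (inv r) := by
    rw [co_con, inv_inv]
    exact hr'.symm
  have hzinj : Function.Injective z := by
    have key : ∀ m m', m < m' → z m ≠ z m' := by
      intro m m' hlt h
      have h1 : co (z m) m = inv s := by
        have := (iter_add (inv r) (con (inv s)) hz0 m).2 0
        rw [Nat.zero_add] at this
        exact this
      have h2 : co (z m') m = inv r := (iter_add (inv r) (con (inv s)) hz0 m').1 m hlt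
      rw [← h, h1] at h2
      exact hr (inv_injective h2.symm)
    intro m m' h
    rcases lt_trichotomy m m' with h' | h' | h'
    · exact absurd h (key _ _ h')
    · exact h'
    · exact absurd h.symm (key _ _ h')
  have hfin : {m | ε ≤ ν {z m}}.Finite := by
    apply Measure.finite_const_le_meas_of_disjoint_iUnion ν hε
      (fun m => (isClosed_singleton).measurableSet)
    · intro a b hab
      simp only [Function.onFun, Set.disjoint_singleton]
      exact fun h => hab (hzinj h)
    · exact measure_ne_top _ _
  obtain ⟨m, hm⟩ : ∃ m, m ∉ {m | ε ≤ ν {z m}} := by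
    by_contra hc
    push Not at hc
    have : {m | ε ≤ ν {z m}} = Set.univ := Set.eq_univ_of_forall hc
    rw [this] at hfin
    exact Set.infinite_univ hfin
  have hm' : ν {z m} < ε := not_le.1 hm
  refine ⟨m, ?_⟩
  let B : ℕ → Set (Bdry n) := fun p =>
    {x | ¬ ∀ k < N, co ((push s)^[p] ((push r)^[m] x)) k = s}
  have hBo : ∀ p, IsOpen (B p) := by
    intro p
    have h1 : IsClosed {y : Bdry n | ∀ k < N, co y k = s} := isClosed_prefix (con s) N
    have h2 : Continuous fun x => (push s)^[p] ((push r)^[m] x) :=
      ((continuous_push s).iterate p).comp ((continuous_push r).iterate m)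
    exact (h1.preimage h2).isOpen_compl
  have hanti : Antitone B := by
    apply antitone_nat_of_succ_le
    intro p x hx hxp
    apply hx
    intro k hk
    rw [Function.iterate_succ_apply']
    have h0 : co ((push s)^[p] ((push r)^[m] x)) 0 ≠ inv s := by
      rw [hxp 0 (by lia)]
      exact (inv_ne s).symm
    cases k with
    | zero => exact co_push_zero h0
    | succ k =>
      rw [co_push_succ h0]
      exact hxp k (by lia)
  have hlim := tendsto_measure_iInter_atTop (μ := ν)
    (fun p => (hBo p).measurableSet.nullMeasurableSet) hanti ⟨0, measure_ne_top _ _⟩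
  have hsub : (⋂ p, B p) ⊆ {z m} := by
    intro x hx
    by_contra hne
    rw [Set.mem_iInter] at hx
    have hne' : (push r)^[m] x ≠ con (inv s) := by
      intro h
      apply hne
      rw [Set.mem_singleton_iff]
      have hinv : ∀ j, ∀ y : Bdry n, (push (inv r))^[j] ((push r)^[j] y) = y := by
        intro j
        induction j with
        | zero => intro y; rfl
        | succ j ih =>
          intro y
          rw [Function.iterate_succ_apply, Function.iterate_succ_apply', push_inv_push, ih]
      change x = (push (inv r))^[m] (con (inv s))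
      rw [← h, hinv]
    obtain ⟨p, hp⟩ := (iter_eventually s _ hne' N).exists
    exact hx p hp
  have hle : ν (⋂ p, B p) < ε := lt_of_le_of_lt (measure_mono hsub) hm'
  obtain ⟨p, hp⟩ := (hlim.eventually (gt_mem_nhds hle)).exists
  exact ⟨p, hp⟩

/-! ### Minimality -/

/-- For `n ≥ 2` one can choose a letter avoiding two given letters. -/
theorem exists_letter (hn : 2 ≤ n) (u v : Letter n) : ∃ s : Letter n, s ≠ u ∧ s ≠ v := by
  classical
  have hc : ({u, v} : Finset (Letter n)).card < (Finset.univ : Finset (Letter n)).card := by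
    refine lt_of_le_of_lt Finset.card_le_two ?_
    rw [Finset.card_univ, Fintype.card_prod, Fintype.card_fin, Fintype.card_bool]
    lia
  obtain ⟨s, -, hs⟩ := Finset.exists_mem_notMem_of_card_lt_card hc
  simp only [Finset.mem_insert, Finset.mem_singleton, not_or] at hs
  exact ⟨s, hs.1, hs.2⟩

/-- The word `x_j x_{j+1} ... x_{j+m-1} y`. -/
def pre (x : Bdry n) : ℕ → ℕ → Bdry n → Bdry n
  | _, 0, y => y
  | j, m + 1, y => push (co x j) (pre x (j + 1) m y)

theorem co_pre (x : Bdry n) (m : ℕ) : ∀ (j : ℕ) (y : Bdry n),
    (0 < m → co y 0 ≠ inv (co x (j + m - 1))) →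
    (∀ k < m, co (pre x j m y) k = co x (j + k)) := by
  induction m with
  | zero => intro j y _ k hk; exact absurd hk (Nat.not_lt_zero k)
  | succ m ih =>
    intro j y hy k hk
    have h0 : co (pre x (j + 1) m y) 0 ≠ inv (co x j) := by
      cases m with
      | zero => exact hy (by lia)
      | succ m =>
        rw [ih (j + 1) y (fun _ => by
          have := hy (by lia)
          have e : j + 1 + (m + 1) - 1 = j + (m + 1 + 1) - 1 := by lia
          rw [e]
          exact this) 0 (by lia)]
        exact co_ne x j
    cases k with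
    | zero => exact co_push_zero h0
    | succ k =>
      change co (push (co x j) (pre x (j + 1) m y)) (k + 1) = _
      rw [co_push_succ h0, ih (j + 1) y (fun _ => by
          have := hy (by lia)
          have e : j + 1 + m - 1 = j + (m + 1) - 1 := by lia
          rw [e]
          exact this) k (by lia)]
      congr 1
      ring

theorem pre_ne (x : Bdry n) (m j : ℕ) (y : Bdry n)
    (hy : co y 0 ≠ inv (co x (j + (m + 1) - 1))) :
    co (pre x (j + 1) m y) 0 ≠ inv (co x j) := by
  cases m with
  | zero => exact hy
  | succ m =>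
    rw [co_pre x (m + 1) (j + 1) y (fun _ => by
      have e : j + 1 + (m + 1) - 1 = j + (m + 1 + 1) - 1 := by lia
      rw [e]
      exact hy) 0 (by lia)]
    exact co_ne x j

/-- A nonempty closed subset invariant under all letters (without cancellation) is everything. -/
theorem closed_inv_univ (hn : 2 ≤ n) {C : Set (Bdry n)} (hC : IsClosed C) (hne : C.Nonempty)
    (hinv : ∀ s, ∀ x ∈ C, co x 0 ≠ inv s → push s x ∈ C) : C = Set.univ := by
  obtain ⟨y, hy⟩ := hne
  rw [Set.eq_univ_iff_forall]
  intro x
  apply mem_of_isClosed_prefix hC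
  intro N
  obtain ⟨v, hv1, hv2⟩ := exists_letter hn (inv (co x (0 + N - 1))) (inv (co y 0))
  have hvy : co y 0 ≠ inv v := by
    intro h
    apply hv2
    rw [h, inv_inv]
  have h1 : co (push v y) 0 ≠ inv (co x (0 + N - 1)) := by
    rw [co_push_zero hvy]
    exact hv1
  have hpre : ∀ m j, ∀ z ∈ C, (0 < m → co z 0 ≠ inv (co x (j + m - 1))) → pre x j m z ∈ C := by
    intro m
    induction m with
    | zero => intro j z hz _; exact hz
    | succ m ih =>
      intro j z hz hzm
      apply hinv
      · apply ih (j + 1) z hz
        intro _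
        have := hzm (by lia)
        have e : j + 1 + m - 1 = j + (m + 1) - 1 := by lia
        rw [e]
        exact this
      · exact pre_ne x m j z (hzm (by lia))
  refine ⟨pre x 0 N (push v y), hpre N 0 _ (hinv v y hy hvy) (fun _ => h1), ?_⟩
  intro k hk
  have := co_pre x N 0 (push v y) (fun _ => h1) k hk
  rwa [Nat.zero_add] at this

end Q16.Bd
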