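import Mathlib
import Pool.Agent.Q16.Bd.Word

/-!
# The action of the free group of rank four on `∂F₂ × ∂F₄`
-/

open Filter Topology

namespace Q16.Bd

/-- The space. -/
abbrev Sp : Type := Bdry 2 × Bdry 4

/-! ### The self-embedding of the first factor -/

/-- A letter symmetry. -/
def pi2 (s : Letter 2) : Letter 2 := (1 - s.1, !s.2)

theorem pi2_pi2 (s : Letter 2) : pi2 (pi2 s) = s := by
  revert s
  decide

theorem pi2_inv (s : Letter 2) : pi2 (inv s) = inv (pi2 s) := by
  revert s
  decide

/-- The induced symmetry of words. -/
def piW (x : Bdry 2) : Bdry 2 := ⟨fun k => pi2 (co x k), fun k h => by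
  apply co_ne x k
  have := congrArg pi2 h
  rw [pi2_pi2, pi2_inv, pi2_pi2] at this
  exact this⟩

theorem co_piW (x : Bdry 2) (k : ℕ) : co (piW x) k = pi2 (co x k) := rfl

theorem piW_piW (x : Bdry 2) : piW (piW x) = x := by
  apply ext_co
  intro k
  rw [co_piW, co_piW, pi2_pi2]

theorem continuous_piW : Continuous piW := by
  apply continuous_of_co
  intro k
  exact (continuous_of_discreteTopology (f := pi2)).comp (continuous_co k)

/-- A function defined by cases according to a continuous map to a discrete space. -/
theorem continuous_cases {A W D : Type*} [TopologicalSpace A] [TopologicalSpace W]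
    [TopologicalSpace D] [DiscreteTopology D] {κ : A → D} (hκ : Continuous κ) {F : D → A → W}
    (hF : ∀ d, Continuous (F d)) : Continuous fun a => F (κ a) a := by
  rw [continuous_iff_continuousAt]
  intro a
  have h1 : ∀ᶠ b in 𝓝 a, κ b = κ a :=
    (hκ.tendsto a).eventually ((isOpen_discrete {κ a}).mem_nhds rfl)
  have h2 : (fun b => F (κ a) b) =ᶠ[𝓝 a] fun b => F (κ b) b := by
    filter_upwards [h1] with b hb
    rw [hb]
  exact ((hF (κ a)).continuousAt).congr h2

/-- The homeomorphism onto the words starting with a positive letter. -/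
def th (y : Bdry 2) : Bdry 2 := if co y 0 = (0, false) then piW y else push (0, true) y

/-- Its inverse. -/
def rh (y : Bdry 2) : Bdry 2 := if co y 0 = (1, true) then piW y else push (0, false) y

theorem th_pos (y : Bdry 2) : (co (th y) 0).2 = true := by
  by_cases h : co y 0 = (0, false)
  · rw [th, if_pos h, co_piW, h]
    rfl
  · rw [th, if_neg h, co_push_zero (by simpa [inv] using h)]

theorem rh_th (y : Bdry 2) : rh (th y) = y := by
  by_cases h : co y 0 = (0, false)
  · have h1 : co (piW y) 0 = (1, true) := by
      rw [co_piW, h]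
      decide
    rw [th, if_pos h, rh, if_pos h1, piW_piW]
  · have h0 : co y 0 ≠ inv (0, true) := by simpa [inv] using h
    have h1 : co (push (0, true) y) 0 ≠ (1, true) := by
      rw [co_push_zero h0]
      decide
    rw [th, if_neg h, rh, if_neg h1]
    exact push_inv_push (0, true) y

theorem th_rh (y : Bdry 2) (hy : (co y 0).2 = true) : th (rh y) = y := by
  by_cases h : co y 0 = (1, true)
  · have h1 : co (piW y) 0 = (0, false) := by
      rw [co_piW, h]
      decide
    rw [rh, if_pos h, th, if_pos h1, piW_piW]
  · have h0 : co y 0 = (0, true) := by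
      generalize co y 0 = s at h hy
      revert s
      decide
    have h2 : co y 0 = inv (0, false) := h0
    have h1 : co (push (0, false) y) 0 ≠ (0, false) := by
      rw [co_push_of_eq h2]
      have := co_ne y 0
      rw [h0] at this
      exact this
    rw [rh, if_neg h, th, if_neg h1]
    exact push_push_inv (0, true) y

theorem continuous_th : Continuous th := by
  have := continuous_cases (continuous_co (n := 2) 0)
    (F := fun d y => if d = (0, false) then piW y else push (0, true) y) (by
      intro d
      by_cases h : d = (0, false)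
      · simp only [if_pos h]
        exact continuous_piW
      · simp only [if_neg h]
        exact continuous_push _)
  exact this

theorem continuous_rh : Continuous rh := by
  have := continuous_cases (continuous_co (n := 2) 0)
    (F := fun d y => if d = (1, true) then piW y else push (0, false) y) (by
      intro d
      by_cases h : d = (1, true)
      · simp only [if_pos h]
        exact continuous_piW
      · simp only [if_neg h]
        exact continuous_push _)
  exact this

/-! ### The special generator -/

/-- The action of the letters `t` and `t⁻¹` (the letters with first component `3`). -/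
def gs (s : Letter 4) (p : Sp) : Sp :=
  if (co p.2 0).1 ≠ 3 then
    (if (co p.1 0).2 = false then p else (rh p.1, push s p.2))
  else
    (if co p.2 0 = inv s ∧ (co p.2 1).1 ≠ 3 then (th p.1, push s p.2) else (p.1, push s p.2))

theorem gs_inv (s : Letter 4) (hs : s.1 = 3) (p : Sp) : gs (inv s) (gs s p) = p := by
  obtain ⟨y, ξ⟩ := p
  have hs' : (inv s).1 = 3 := hs
  by_cases h0 : (co ξ 0).1 ≠ 3
  · by_cases hy : (co y 0).2 = false
    · have e : gs s (y, ξ) = (y, ξ) := by
        simp only [gs, if_pos h0, if_pos hy]
      rw [e]
      simp only [gs, if_pos h0, if_pos hy]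
    · have e : gs s (y, ξ) = (rh y, push s ξ) := by
        simp only [gs, if_pos h0, if_neg hy]
      rw [e]
      have hne : co ξ 0 ≠ inv s := by
        intro h
        rw [h] at h0
        exact h0 hs'
      have h1 : ¬ ((co (push s ξ) 0).1 ≠ 3) := by
        rw [co_push_zero hne, hs]
        exact fun h => h rfl
      have h2 : co (push s ξ) 0 = inv (inv s) ∧ (co (push s ξ) 1).1 ≠ 3 := by
        rw [co_push_zero hne, inv_inv]
        refine ⟨rfl, ?_⟩
        rw [co_push_succ hne]
        exact h0
      have e2 : gs (inv s) (rh y, push s ξ) = (th (rh y), push (inv s) (push s ξ)) := by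
        simp only [gs, if_neg h1, if_pos h2]
      rw [e2, push_inv_push, th_rh y (by simpa using hy)]
  · have h0' : (co ξ 0).1 = 3 := not_not.1 h0
    by_cases hc : co ξ 0 = inv s
    · by_cases h3 : (co ξ 1).1 ≠ 3
      · have e : gs s (y, ξ) = (th y, push s ξ) := by
          simp only [gs, if_neg h0, if_pos (And.intro hc h3)]
        rw [e]
        have h1 : (co (push s ξ) 0).1 ≠ 3 := by
          rw [co_push_of_eq hc]
          exact h3
        have h2 : ¬ (co (th y) 0).2 = false := by
          rw [th_pos]
          decide
        have e2 : gs (inv s) (th y, push s ξ) = (rh (th y), push (inv s) (push s ξ)) := by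
          simp only [gs, if_pos h1, if_neg h2]
        rw [e2, push_inv_push, rh_th]
      · have hn : ¬ (co ξ 0 = inv s ∧ (co ξ 1).1 ≠ 3) := fun h => h3 h.2
        have e : gs s (y, ξ) = (y, push s ξ) := by
          simp only [gs, if_neg h0, if_neg hn]
        rw [e]
        have h1 : ¬ ((co (push s ξ) 0).1 ≠ 3) := by
          rw [co_push_of_eq hc]
          exact h3
        have h2 : ¬ (co (push s ξ) 0 = inv (inv s) ∧ (co (push s ξ) 1).1 ≠ 3) := by
          rw [inv_inv]
          rintro ⟨h4, -⟩
          rw [co_push_of_eq hc] at h4
          apply co_ne ξ 0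
          rw [h4, hc, inv_inv]
        have e2 : gs (inv s) (y, push s ξ) = (y, push (inv s) (push s ξ)) := by
          simp only [gs, if_neg h1, if_neg h2]
        rw [e2, push_inv_push]
    · have hn : ¬ (co ξ 0 = inv s ∧ (co ξ 1).1 ≠ 3) := fun h => hc h.1
      have e : gs s (y, ξ) = (y, push s ξ) := by
        simp only [gs, if_neg h0, if_neg hn]
      rw [e]
      have h1 : ¬ ((co (push s ξ) 0).1 ≠ 3) := by
        rw [co_push_zero hc]
        exact fun h => h hs
      have h2 : ¬ (co (push s ξ) 0 = inv (inv s) ∧ (co (push s ξ) 1).1 ≠ 3) := by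
        rintro ⟨-, h4⟩
        rw [co_push_succ hc] at h4
        exact h4 h0'
      have e2 : gs (inv s) (y, push s ξ) = (y, push (inv s) (push s ξ)) := by
        simp only [gs, if_neg h1, if_neg h2]
      rw [e2, push_inv_push]

theorem continuous_gs (s : Letter 4) : Continuous (gs s) := by
  let κ : Sp → Letter 2 × Letter 4 × Letter 4 := fun p => (co p.1 0, co p.2 0, co p.2 1)
  have hκ : Continuous κ :=
    ((continuous_co 0).comp continuous_fst).prodMk
      (((continuous_co 0).comp continuous_snd).prodMk ((continuous_co 1).comp continuous_snd))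
  have hp : Continuous fun p : Sp => push s p.2 := (continuous_push s).comp continuous_snd
  have := continuous_cases hκ (F := fun d (p : Sp) =>
    if d.2.1.1 ≠ 3 then
      (if d.1.2 = false then p else (rh p.1, push s p.2))
    else
      (if d.2.1 = inv s ∧ d.2.2.1 ≠ 3 then (th p.1, push s p.2) else (p.1, push s p.2))) (by
      intro d
      by_cases h1 : d.2.1.1 ≠ 3
      · simp only [if_pos h1]
        by_cases h2 : d.1.2 = false
        · simp only [if_pos h2]
          exact continuous_id
        · simp only [if_neg h2]
          exact (continuous_rh.comp continuous_fst).prodMk hp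
      · simp only [if_neg h1]
        by_cases h2 : d.2.1 = inv s ∧ d.2.2.1 ≠ 3
        · simp only [if_pos h2]
          exact (continuous_th.comp continuous_fst).prodMk hp
        · simp only [if_neg h2]
          exact continuous_fst.prodMk hp)
  exact this

/-! ### The action of all letters -/

/-- The action of the letters on the first factor. -/
def al (s : Letter 4) (y : Bdry 2) : Bdry 2 :=
  if s.1 = 0 then push (0, s.2) y else if s.1 = 1 then push (1, s.2) y else y

theorem al_inv (s : Letter 4) (y : Bdry 2) : al (inv s) (al s y) = y := by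
  by_cases h0 : s.1 = 0
  · have h0' : (inv s).1 = 0 := h0
    simp only [al, if_pos h0, if_pos h0']
    exact push_inv_push (0, s.2) y
  · have h0' : ¬ (inv s).1 = 0 := h0
    by_cases h1 : s.1 = 1
    · have h1' : (inv s).1 = 1 := h1
      simp only [al, if_neg h0, if_neg h0', if_pos h1, if_pos h1']
      exact push_inv_push (1, s.2) y
    · have h1' : ¬ (inv s).1 = 1 := h1
      simp only [al, if_neg h0, if_neg h0', if_neg h1, if_neg h1']

theorem continuous_al (s : Letter 4) : Continuous (al s) := by
  by_cases h0 : s.1 = 0
  · have : al s = push (0, s.2) := by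
      funext y
      simp only [al, if_pos h0]
    rw [this]
    exact continuous_push _
  · by_cases h1 : s.1 = 1
    · have : al s = push (1, s.2) := by
        funext y
        simp only [al, if_neg h0, if_pos h1]
      rw [this]
      exact continuous_push _
    · have : al s = id := by
        funext y
        simp only [al, if_neg h0, if_neg h1, id]
      rw [this]
      exact continuous_id

/-- The action of a letter. -/
def ac (s : Letter 4) (p : Sp) : Sp := if s.1 = 3 then gs s p else (al s p.1, push s p.2)

theorem ac_inv (s : Letter 4) (p : Sp) : ac (inv s) (ac s p) = p := by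
  by_cases h : s.1 = 3
  · have h' : (inv s).1 = 3 := h
    simp only [ac, if_pos h, if_pos h']
    exact gs_inv s h p
  · have h' : ¬ (inv s).1 = 3 := h
    simp only [ac, if_neg h, if_neg h']
    rw [al_inv, push_inv_push]

theorem continuous_ac (s : Letter 4) : Continuous (ac s) := by
  by_cases h : s.1 = 3
  · have : ac s = gs s := by
      funext p
      simp only [ac, if_pos h]
    rw [this]
    exact continuous_gs s
  · have : ac s = fun p => (al s p.1, push s p.2) := by
      funext p
      simp only [ac, if_neg h]
    rw [this]
    exact ((continuous_al s).comp continuous_fst).prodMk ((continuous_push s).comp continuous_snd)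

/-- The homeomorphism of a letter. -/
def acH (s : Letter 4) : Sp ≃ₜ Sp where
  toFun := ac s
  invFun := ac (inv s)
  left_inv := ac_inv s
  right_inv p := by
    have := ac_inv (inv s) p
    rwa [inv_inv] at this
  continuous_toFun := continuous_ac s
  continuous_invFun := continuous_ac (inv s)

/-- The homomorphism. -/
def Phi : FreeGroup (Fin 4) →* (Sp ≃ₜ Sp) := FreeGroup.lift fun i => acH (i, true)

theorem Phi_mk (L : List (Letter 4)) (p : Sp) : Phi (FreeGroup.mk L) p = L.foldr ac p := by
  induction L with
  | nil => rfl
  | cons s L ih =>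
    have h1 : FreeGroup.mk (s :: L) = FreeGroup.mk [s] * FreeGroup.mk L := by
      rw [FreeGroup.mul_mk]
      rfl
    rw [h1, map_mul]
    change Phi (FreeGroup.mk [s]) (Phi (FreeGroup.mk L) p) = _
    rw [ih, List.foldr_cons]
    have h2 : Phi (FreeGroup.mk [s]) = acH s := by
      rw [Phi, FreeGroup.lift_mk]
      obtain ⟨i, b⟩ := s
      cases b with
      | true => simp
      | false =>
        simp only [List.map_cons, List.map_nil, List.prod_cons, List.prod_nil, mul_one, cond_false]
        rfl
    rw [h2]
    rfl

/-- The action of the free group. -/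
instance instAct : MulAction (FreeGroup (Fin 4)) Sp where
  smul w p := Phi w p
  one_smul p := by
    change Phi 1 p = p
    rw [map_one]
    rfl
  mul_smul v w p := by
    change Phi (v * w) p = Phi v (Phi w p)
    rw [map_mul]
    rfl

theorem smul_def (w : FreeGroup (Fin 4)) (p : Sp) : w • p = Phi w p := rfl

theorem smul_mk (L : List (Letter 4)) (p : Sp) : FreeGroup.mk L • p = L.foldr ac p := Phi_mk L p

theorem smul_letter (s : Letter 4) (p : Sp) : FreeGroup.mk [s] • p = ac s p := Phi_mk [s] p

theorem continuous_smul' (w : FreeGroup (Fin 4)) : Continuous fun p : Sp => w • p :=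
  (Phi w).continuous

/-! ### The lifting lemma and faithfulness -/

theorem lift_step (s : Letter 4) (ξ : Bdry 4) (h : co ξ 0 ≠ inv s) (y : Bdry 2) :
    ∃ y₀, ac s (y₀, ξ) = (y, push s ξ) := by
  by_cases h3 : s.1 = 3
  · by_cases h0 : (co ξ 0).1 ≠ 3
    · refine ⟨th y, ?_⟩
      have h2 : ¬ (co (th y) 0).2 = false := by
        rw [th_pos]
        decide
      simp only [ac, if_pos h3, gs, if_pos h0, if_neg h2, rh_th]
    · refine ⟨y, ?_⟩
      have hn : ¬ (co ξ 0 = inv s ∧ (co ξ 1).1 ≠ 3) := fun h' => h h'.1
      simp only [ac, if_pos h3, gs, if_neg h0, if_neg hn]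
  · refine ⟨al (inv s) y, ?_⟩
    simp only [ac, if_neg h3]
    have := al_inv (inv s) y
    rw [inv_inv] at this
    rw [this]

theorem lift_word (L : List (Letter 4)) : FreeGroup.IsReduced L → ∀ ξ : Bdry 4,
    (∀ s ∈ L.getLast?, co ξ 0 ≠ inv s) → ∀ y : Bdry 2,
    (∃ y₀, L.foldr ac (y₀, ξ) = (y, L.foldr push ξ)) ∧
      ∀ s ∈ L.head?, co (L.foldr push ξ) 0 = s := by
  induction L with
  | nil =>
    intro _ ξ _ y
    exact ⟨⟨y, rfl⟩, by simp⟩
  | cons s L ih =>
    intro hL ξ hξ y
    have hne : co (L.foldr push ξ) 0 ≠ inv s := by
      cases L with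
      | nil => exact hξ s (by simp)
      | cons s' L =>
        rw [FreeGroup.isReduced_cons_cons] at hL
        have h1 := (ih hL.2 ξ (by simpa using hξ) y).2 s' (by simp)
        rw [h1]
        intro h
        have h2 := hL.1 (by rw [h]; rfl)
        rw [h] at h2
        simp [inv] at h2
    obtain ⟨y₁, hy₁⟩ := lift_step s (L.foldr push ξ) hne y
    have hL' : FreeGroup.IsReduced L := by
      cases L with
      | nil => exact FreeGroup.IsReduced.nil
      | cons s' L =>
        rw [FreeGroup.isReduced_cons_cons] at hL
        exact hL.2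
    have hξ' : ∀ s ∈ L.getLast?, co ξ 0 ≠ inv s := by
      cases L with
      | nil => simp
      | cons s' L => simpa using hξ
    obtain ⟨⟨y₀, hy₀⟩, -⟩ := ih hL' ξ hξ' y₁
    refine ⟨⟨y₀, ?_⟩, ?_⟩
    · rw [List.foldr_cons, hy₀, hy₁, List.foldr_cons]
    · intro s₁ hs₁
      simp only [List.head?_cons, Option.mem_def, Option.some.injEq] at hs₁
      rw [← hs₁, List.foldr_cons, co_push_zero hne]

theorem faithful (w : FreeGroup (Fin 4)) (hw : ∀ p : Sp, w • p = p) : w = 1 := by
  by_contra hne
  have hL : w.toWord ≠ [] := fun h => hne (FreeGroup.toWord_eq_nil_iff.1 h)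
  obtain ⟨s, hs1, hs2⟩ := exists_letter (n := 4) (by norm_num)
    (inv (w.toWord.getLast hL)) (w.toWord.head hL)
  have hξ : ∀ s' ∈ w.toWord.getLast?, co (con s) 0 ≠ inv s' := by
    intro s' hs'
    rw [List.getLast?_eq_some_getLast hL, Option.mem_some_iff] at hs'
    rw [← hs', co_con]
    exact hs1
  obtain ⟨⟨y₀, hy₀⟩, hh⟩ := lift_word w.toWord FreeGroup.isReduced_toWord (con s) hξ (con (0, true))
  have h1 := hw (y₀, con s)
  rw [← FreeGroup.mk_toWord (x := w), smul_mk, hy₀] at h1
  have h2 := congrArg Prod.snd h1
  simp only at h2
  have h3 := hh (w.toWord.head hL) (by rw [List.head?_eq_some_head hL]; rfl)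
  rw [h2, co_con] at h3
  exact hs2 h3

end Q16.Bd
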