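import Mathlib
import Pool.Agent.Q16.Bd.Act

/-!
# Minimality and strong proximality of the action
-/

open Filter Topology MeasureTheory

namespace Q16.Bd

/-- The letter `a`. -/
abbrev la : Letter 4 := (0, true)
/-- The letter `b`. -/
abbrev lb : Letter 4 := (1, true)
/-- The letter `c`. -/
abbrev lc : Letter 4 := (2, true)

theorem ac_lc (y : Bdry 2) (ξ : Bdry 4) : ac lc (y, ξ) = (y, push lc ξ) := by
  have h3 : ¬ (lc : Letter 4).1 = 3 := by decide
  have h0 : ¬ (lc : Letter 4).1 = 0 := by decide
  have h1 : ¬ (lc : Letter 4).1 = 1 := by decide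
  simp only [ac, if_neg h3, al, if_neg h0, if_neg h1]

theorem ac_a (b : Bool) (y : Bdry 2) (ξ : Bdry 4) :
    ac (0, b) (y, ξ) = (push (0, b) y, push (0, b) ξ) := by
  have h3 : ¬ ((0, b) : Letter 4).1 = 3 := by simp
  simp only [ac, if_neg h3, al, if_true]

theorem ac_b (b : Bool) (y : Bdry 2) (ξ : Bdry 4) :
    ac (1, b) (y, ξ) = (push (1, b) y, push (1, b) ξ) := by
  have h3 : ¬ ((1, b) : Letter 4).1 = 3 := by simp
  have h0 : ¬ ((1, b) : Letter 4).1 = 0 := by simp
  simp only [ac, if_neg h3, al, if_neg h0, if_true]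

theorem iter_lc (m : ℕ) : ∀ (y : Bdry 2) (ξ : Bdry 4), (ac lc)^[m] (y, ξ) = (y, (push lc)^[m] ξ) := by
  induction m with
  | zero => intro y ξ; rfl
  | succ m ih =>
    intro y ξ
    rw [Function.iterate_succ_apply, ac_lc, ih, Function.iterate_succ_apply]

theorem iter_la (m : ℕ) : ∀ (y : Bdry 2) (ξ : Bdry 4),
    (ac la)^[m] (y, ξ) = ((push (0, true))^[m] y, (push la)^[m] ξ) := by
  induction m with
  | zero => intro y ξ; rfl
  | succ m ih =>
    intro y ξ
    rw [Function.iterate_succ_apply, ac_a, ih, Function.iterate_succ_apply,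
      Function.iterate_succ_apply]

theorem iter_lb (m : ℕ) : ∀ (y : Bdry 2) (ξ : Bdry 4),
    (ac lb)^[m] (y, ξ) = ((push (1, true))^[m] y, (push lb)^[m] ξ) := by
  induction m with
  | zero => intro y ξ; rfl
  | succ m ih =>
    intro y ξ
    rw [Function.iterate_succ_apply, ac_b, ih, Function.iterate_succ_apply,
      Function.iterate_succ_apply]

/-! ### Minimality -/

theorem iter_mem {C : Set Sp} (hinv : ∀ s, ∀ p ∈ C, ac s p ∈ C) (s : Letter 4) (m : ℕ) :
    ∀ p ∈ C, (ac s)^[m] p ∈ C := by
  induction m with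
  | zero => intro p hp; exact hp
  | succ m ih =>
    intro p hp
    rw [Function.iterate_succ_apply]
    exact ih _ (hinv s p hp)

theorem limit_mem {C : Set Sp} (hC : IsClosed C) (hinv : ∀ s, ∀ p ∈ C, ac s p ∈ C)
    {y : Bdry 2} {ξ : Bdry 4} (hp : (y, ξ) ∈ C) (hξ : ξ ≠ con (inv lc)) : (y, con lc) ∈ C := by
  have h1 : Tendsto (fun m => (ac lc)^[m] (y, ξ)) atTop (𝓝 (y, con lc)) := by
    have : (fun m => (ac lc)^[m] (y, ξ)) = fun m => (y, (push lc)^[m] ξ) :=
      funext fun m => iter_lc m y ξ
    rw [this]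
    exact tendsto_const_nhds.prodMk_nhds (tendsto_iter lc ξ hξ)
  exact hC.mem_of_tendsto h1 (Eventually.of_forall fun m => iter_mem hinv lc m _ hp)

theorem closed_univ {C : Set Sp} (hC : IsClosed C) (hne : C.Nonempty)
    (hinv : ∀ s, ∀ p ∈ C, ac s p ∈ C) : C = Set.univ := by
  -- step 1
  have h1 : ∃ y, (y, con lc) ∈ C := by
    obtain ⟨⟨y, ξ⟩, hp⟩ := hne
    by_cases hξ : ξ = con (inv lc)
    · have h2 := hinv la _ hp
      rw [ac_a] at h2
      refine ⟨_, limit_mem hC hinv h2 ?_⟩
      intro h
      have h3 : co (push la ξ) 0 = la := by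
        apply co_push_zero
        rw [hξ, co_con]
        decide
      rw [h, co_con] at h3
      exact absurd h3 (by decide)
    · exact ⟨y, limit_mem hC hinv hp hξ⟩
  -- step 2
  have h2 : {y : Bdry 2 | (y, con lc) ∈ C} = Set.univ := by
    apply closed_inv_univ (le_refl 2)
    · exact hC.preimage (Continuous.prodMk continuous_id continuous_const)
    · exact h1
    · intro s y hy _
      have key : ∀ s' : Letter 4, s'.1 ≠ 2 → co (push s' (con lc)) 0 = s' := by
        intro s' hs'
        apply co_push_zero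
        rw [co_con]
        intro h
        apply hs'
        have := congrArg Prod.fst h
        exact this.symm
      obtain ⟨i, b⟩ := s
      fin_cases i
      · have h3 := hinv (0, b) _ hy
        rw [ac_a] at h3
        refine limit_mem hC hinv h3 ?_
        intro h
        have h4 := key (0, b) (by simp)
        rw [h, co_con] at h4
        have := congrArg Prod.fst h4
        exact absurd this (by simp [inv])
      · have h3 := hinv (1, b) _ hy
        rw [ac_b] at h3
        refine limit_mem hC hinv h3 ?_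
        intro h
        have h4 := key (1, b) (by simp)
        rw [h, co_con] at h4
        have := congrArg Prod.fst h4
        exact absurd this (by simp [inv])
  -- step 3
  have h3 : {ξ : Bdry 4 | ∀ y : Bdry 2, (y, ξ) ∈ C} = Set.univ := by
    apply closed_inv_univ (by norm_num)
    · have : {ξ : Bdry 4 | ∀ y : Bdry 2, (y, ξ) ∈ C} = ⋂ y : Bdry 2, {ξ | (y, ξ) ∈ C} := by
        ext ξ
        simp
      rw [this]
      exact isClosed_iInter fun y => hC.preimage (Continuous.prodMk continuous_const continuous_id)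
    · exact ⟨con lc, fun y => Set.eq_univ_iff_forall.1 h2 y⟩
    · intro s ξ hξ hne' y
      obtain ⟨y₀, hy₀⟩ := lift_step s ξ hne' y
      rw [← hy₀]
      exact hinv s _ (hξ y₀)
  rw [Set.eq_univ_iff_forall]
  rintro ⟨y, ξ⟩
  exact Set.eq_univ_iff_forall.1 h3 ξ y

theorem dense_orbit (p : Sp) : Dense (MulAction.orbit (FreeGroup (Fin 4)) p) := by
  rw [dense_iff_closure_eq]
  apply closed_univ isClosed_closure
  · exact ⟨p, subset_closure ⟨1, one_smul _ _⟩⟩
  · intro s q hq
    have h1 : Set.MapsTo (ac s) (MulAction.orbit (FreeGroup (Fin 4)) p)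
        (MulAction.orbit (FreeGroup (Fin 4)) p) := by
      rintro _ ⟨w, rfl⟩
      refine ⟨FreeGroup.mk [s] * w, ?_⟩
      simp only
      rw [mul_smul, smul_letter]
    exact h1.closure (continuous_ac s) hq

/-! ### Strong proximality -/

/-- Powers of a letter. -/
theorem pow_smul (s : Letter 4) (m : ℕ) (p : Sp) : (FreeGroup.mk [s]) ^ m • p = (ac s)^[m] p := by
  induction m with
  | zero => rw [pow_zero, one_smul]; rfl
  | succ m ih => rw [pow_succ', mul_smul, ih, smul_letter, Function.iterate_succ_apply']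

/-- Words starting with a positive letter are preserved by positive letters. -/
theorem pos_iter {s : Letter 4} (hs : s.2 = true) (m : ℕ) (ξ : Bdry 4) (hξ : (co ξ 0).2 = true) :
    (co ((push s)^[m] ξ) 0).2 = true := by
  induction m with
  | zero => exact hξ
  | succ m ih =>
    rw [Function.iterate_succ_apply', co_push_zero]
    · exact hs
    · intro h
      rw [h] at ih
      simp [inv, hs] at ih

/-- The contraction of measures on the product. -/
theorem contract (μ : Measure Sp) [IsFiniteMeasure μ] (N : ℕ) (ε : ENNReal) (hε : 0 < ε) :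
    ∃ g : FreeGroup (Fin 4), μ {p : Sp | ¬ ((∀ k < N, co (g • p).1 k = (0, true)) ∧
      ∀ k < N, co (g • p).2 k = lc)} < ε := by
  have hε2 : 0 < ε / 2 := ENNReal.half_pos hε.ne'
  obtain ⟨m, n₁, h1⟩ := exists_contract (μ.map Prod.snd) la lc (by decide) (by decide) 1 (ε / 2) hε2
  have hf : Continuous fun p : Sp => (push (0, true))^[m] p.1 :=
    ((continuous_push _).iterate m).comp continuous_fst
  obtain ⟨q, l, h2⟩ := exists_contract (μ.map fun p : Sp => (push (0, true))^[m] p.1)
    (1, true) (0, true) (by decide) (by decide) N (ε / 2) hε2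
  have o1 : IsOpen {ξ : Bdry 4 | ¬ ∀ k < 1, co ((push lc)^[n₁] ((push la)^[m] ξ)) k = lc} := by
    have h3 : IsClosed {y : Bdry 4 | ∀ k < 1, co y k = lc} := isClosed_prefix (con lc) 1
    exact (h3.preimage (((continuous_push lc).iterate n₁).comp
      ((continuous_push la).iterate m))).isOpen_compl
  have o2 : IsOpen {y : Bdry 2 | ¬ ∀ k < N,
      co ((push (0, true))^[l] ((push (1, true))^[q] y)) k = (0, true)} := by
    have h3 : IsClosed {y : Bdry 2 | ∀ k < N, co y k = (0, true)} := isClosed_prefix (con (0, true)) N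
    exact (h3.preimage (((continuous_push (0, true)).iterate l).comp
      ((continuous_push (1, true)).iterate q))).isOpen_compl
  rw [Measure.map_apply measurable_snd o1.measurableSet] at h1
  rw [Measure.map_apply hf.measurable o2.measurableSet] at h2
  refine ⟨(FreeGroup.mk [lc]) ^ N * ((FreeGroup.mk [la]) ^ l * ((FreeGroup.mk [lb]) ^ q *
    ((FreeGroup.mk [lc]) ^ n₁ * (FreeGroup.mk [la]) ^ m))), ?_⟩
  refine lt_of_le_of_lt (measure_mono ?_) (lt_of_le_of_lt (measure_union_le _ _)
    (lt_of_lt_of_eq (ENNReal.add_lt_add h1 h2) (ENNReal.add_halves ε)))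
  rintro ⟨y, ξ⟩ hp
  by_contra hc
  rw [Set.mem_union, not_or] at hc
  obtain ⟨hc1, hc2⟩ := hc
  have hc1' : ∀ k < 1, co ((push lc)^[n₁] ((push la)^[m] ξ)) k = lc := not_not.1 hc1
  have hc2' : ∀ k < N, co ((push (0, true))^[l] ((push (1, true))^[q]
    ((push (0, true))^[m] y))) k = (0, true) := not_not.1 hc2
  apply hp
  rw [mul_smul, mul_smul, mul_smul, mul_smul, pow_smul, pow_smul, pow_smul, pow_smul, pow_smul,
    iter_la, iter_lc, iter_lb, iter_la, iter_lc]
  refine ⟨hc2', ?_⟩
  simp only
  have h5 : (co ((push la)^[l] ((push lb)^[q] ((push lc)^[n₁] ((push la)^[m] ξ)))) 0).2 = true := by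
    apply pos_iter rfl
    apply pos_iter rfl
    rw [hc1' 0 one_pos]
  apply (iter_add lc _ _ N).1
  intro h
  rw [h] at h5
  simp [inv] at h5

/-- Every orbit closure of probability measures contains a Dirac measure. -/
theorem strongly_proximal (μ : ProbabilityMeasure Sp) :
    diracProba ((con (0, true), con lc) : Sp) ∈
      closure {ν : ProbabilityMeasure Sp | ∃ g : FreeGroup (Fin 4),
        (ν : Measure Sp) = (μ : Measure Sp).map fun p => g • p} := by
  have hex : ∀ N : ℕ, ∃ g : FreeGroup (Fin 4),
      (μ : Measure Sp) {p : Sp | ¬ ((∀ k < N, co (g • p).1 k = (0, true)) ∧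
      ∀ k < N, co (g • p).2 k = lc)} < ((N : ENNReal) + 1)⁻¹ := fun N =>
    contract μ N _ (by simp [ENNReal.inv_pos])
  choose g hg using hex
  let μs : ℕ → ProbabilityMeasure Sp := fun N =>
    μ.map (f := fun p => g N • p) (continuous_smul' (g N)).measurable.aemeasurable
  have hμs : ∀ N, (μs N : Measure Sp) = (μ : Measure Sp).map fun p => g N • p := fun N => rfl
  have hlim : Tendsto μs atTop (𝓝 (diracProba ((con (0, true), con lc) : Sp))) := by
    apply tendsto_of_forall_isOpen_le_liminf'
    intro G hG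
    by_cases hx : ((con (0, true), con lc) : Sp) ∈ G
    · have h1 : (diracProba ((con (0, true), con lc) : Sp) : Measure Sp) G ≤ 1 := prob_le_one
      refine h1.trans ?_
      obtain ⟨U, hU, V, hV, hUV⟩ := mem_nhds_prod_iff.1 (hG.mem_nhds hx)
      obtain ⟨N₁, hN₁⟩ := mem_nhds_of_prefix hU
      obtain ⟨N₂, hN₂⟩ := mem_nhds_of_prefix hV
      have hlow : ∀ᶠ N : ℕ in atTop, 1 - ((N : ENNReal) + 1)⁻¹ ≤ (μs N : Measure Sp) G := by
        filter_upwards [eventually_ge_atTop (max N₁ N₂)] with N hN
        have hN1 : N₁ ≤ N := (le_max_left _ _).trans hN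
        have hN2 : N₂ ≤ N := (le_max_right _ _).trans hN
        rw [hμs, Measure.map_apply (continuous_smul' (g N)).measurable hG.measurableSet]
        have hmeas : MeasurableSet ((fun p : Sp => g N • p) ⁻¹' G) :=
          (continuous_smul' (g N)).measurable hG.measurableSet
        have h2 : (μ : Measure Sp) ((fun p : Sp => g N • p) ⁻¹' G)ᶜ ≤ ((N : ENNReal) + 1)⁻¹ := by
          refine (measure_mono ?_).trans (hg N).le
          intro p hp hpg
          apply hp
          apply hUV
          refine ⟨hN₁ _ fun k hk => ?_, hN₂ _ fun k hk => ?_⟩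
          · rw [co_con]
            exact hpg.1 k (lt_of_lt_of_le hk hN1)
          · rw [co_con]
            exact hpg.2 k (lt_of_lt_of_le hk hN2)
        have h3 : (μ : Measure Sp) ((fun p : Sp => g N • p) ⁻¹' G) =
            1 - (μ : Measure Sp) ((fun p : Sp => g N • p) ⁻¹' G)ᶜ := by
          rw [prob_compl_eq_one_sub hmeas]
          rw [ENNReal.sub_sub_cancel ENNReal.one_ne_top prob_le_one]
        rw [h3]
        exact tsub_le_tsub_left h2 1
      have hl : Tendsto (fun N : ℕ => 1 - ((N : ENNReal) + 1)⁻¹) atTop (𝓝 1) := by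
        have h4 : Tendsto (fun N : ℕ => ((N : ENNReal) + 1)⁻¹) atTop (𝓝 0) := by
          have := ENNReal.tendsto_inv_nat_nhds_zero.comp (tendsto_add_atTop_nat 1)
          refine this.congr fun N => ?_
          simp
        have h5 := ENNReal.Tendsto.sub (tendsto_const_nhds (x := (1 : ENNReal))) h4
          (Or.inl ENNReal.one_ne_top)
        simpa using h5
      rw [← hl.liminf_eq]
      exact liminf_le_liminf hlow
    · have h0 : (diracProba ((con (0, true), con lc) : Sp) : Measure Sp) G = 0 := by
        change Measure.dirac _ G = 0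
        rw [Measure.dirac_apply' _ hG.measurableSet]
        simp [hx]
      rw [h0]
      exact zero_le
  refine mem_closure_of_tendsto hlim (Eventually.of_forall fun N => ?_)
  exact ⟨g N, hμs N⟩

/-! ### The action is not topologically free -/

theorem fixed_open (p : Sp) (h1 : (co p.1 0).2 = false) (h2 : (co p.2 0).1 ≠ 3) :
    FreeGroup.mk [((3, true) : Letter 4)] • p = p := by
  rw [smul_letter]
  simp only [ac, if_true, gs, if_pos h2, if_pos h1]

theorem not_topologically_free :
    ¬ Dense {p : Sp | MulAction.stabilizer (FreeGroup (Fin 4)) p = ⊥} := by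
  intro hd
  let O : Set Sp := {p | (co p.1 0).2 = false ∧ (co p.2 0).1 ≠ 3}
  have hO : IsOpen O := by
    have h1 : IsOpen {p : Sp | (co p.1 0).2 = false} := by
      have : {p : Sp | (co p.1 0).2 = false} =
          (fun p : Sp => co p.1 0) ⁻¹' {s | s.2 = false} := rfl
      rw [this]
      exact (isOpen_discrete _).preimage ((continuous_co 0).comp continuous_fst)
    have h2 : IsOpen {p : Sp | (co p.2 0).1 ≠ 3} := by
      have : {p : Sp | (co p.2 0).1 ≠ 3} =
          (fun p : Sp => co p.2 0) ⁻¹' {s | s.1 ≠ 3} := rfl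
      rw [this]
      exact (isOpen_discrete _).preimage ((continuous_co 0).comp continuous_snd)
    exact h1.inter h2
  have hne : O.Nonempty := ⟨(con (0, false), con la), rfl, by
    change (co (con la) 0).1 ≠ 3
    rw [co_con]
    decide⟩
  obtain ⟨p, hpO, hp⟩ := hd.inter_open_nonempty O hO hne
  have h1 : FreeGroup.mk [((3, true) : Letter 4)] ∈ MulAction.stabilizer (FreeGroup (Fin 4)) p :=
    fixed_open p hpO.1 hpO.2
  have hp' : MulAction.stabilizer (FreeGroup (Fin 4)) p = ⊥ := hp
  rw [hp', Subgroup.mem_bot] at h1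
  exact FreeGroup.of_ne_one (3 : Fin 4) h1

end Q16.Bd
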